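import Pool.Agent.H500.SV.Stm
import Pool.Agent.H500.R2.Gal

set_option autoImplicit false
set_option linter.unusedSectionVars false

/-!
# Project SV (helper500), part 10: there are many generic places
-/

namespace Pool.Agent.H190.SV.E2

open NumberField IsDedekindDomain Filter Topology Polynomial
open scoped Pointwise
open Pool.Agent.W401.Cheb (GK IsFrob IsInert dens)
open Pool.Agent.H500.HC (InRay IsRayChar TotPos QBar ZBar em typ jz)
open Pool.Agent.H500.MW (PosUD)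
open Pool.Agent.H500.R2 (UnrOut SpC)
open Pool.Agent.H500.SV

/-- a group is not covered by few subgroups of large index -/
theorem cover {n m0 : ℕ} {k G : Type} [Field k] [Group G] (χ : Fin n → (G →* kˣ))
    (R : Fin n → Fin n → Prop)
    (h : ∀ i i', R i i' → ∀ s : ℕ, 0 < s → s ≤ n ^ 2 →
      ∃ g, χ i g ^ (m0 * s) ≠ χ i' g ^ (m0 * s)) :
    ∃ g, ∀ i i', R i i' → χ i g ^ m0 ≠ χ i' g ^ m0 := by
  classical
  by_contra hcon
  push Not at hcon
  set f : Fin n × Fin n → (G →* kˣ) := fun p => (χ p.1 / χ p.2) ^ m0 with hf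
  have hmem : ∀ (p : Fin n × Fin n) (g : G), g ∈ (f p).ker ↔ χ p.1 g ^ m0 = χ p.2 g ^ m0 := by
    intro p g
    rw [MonoidHom.mem_ker, hf]
    simp only [MonoidHom.pow_apply, MonoidHom.div_apply, div_pow, div_eq_one]
  set s : Finset (Fin n × Fin n) := Finset.univ.filter (fun p => R p.1 p.2) with hs
  have hcov : ⋃ p ∈ s, (1 : G) • ((f p).ker : Set G) = Set.univ := by
    rw [Set.eq_univ_iff_forall]
    intro g
    obtain ⟨i, i', hR, he⟩ := hcon g
    simp only [Set.mem_iUnion]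
    refine ⟨(i, i'), ?_, ?_⟩
    · rw [hs, Finset.mem_filter]
      exact ⟨Finset.mem_univ _, hR⟩
    · rw [one_smul]
      exact (hmem (i, i') g).2 he
  obtain ⟨p, hp, hfi, hidx⟩ := Subgroup.exists_index_le_card_of_leftCoset_cover hcov
  have h0 : 0 < (f p).ker.index := Nat.pos_of_ne_zero hfi.index_ne_zero
  have h1 : (f p).ker.index ≤ n ^ 2 := by
    refine hidx.trans ((Finset.card_le_univ _).trans ?_)
    simp [sq]
  obtain ⟨g, hg⟩ := h p.1 p.2 (Finset.mem_filter.1 hp).2 _ h0 h1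
  apply hg
  have h2 : g ^ (f p).ker.index ∈ (f p).ker := Subgroup.pow_index_mem _ g
  rw [hmem, map_pow, map_pow, ← pow_mul, ← pow_mul] at h2
  rw [mul_comm m0]
  exact h2

/-- a function with as many values as a finer one -/
theorem sep {n : ℕ} {k l : Type} [DecidableEq k] [DecidableEq l] (f : Fin n → k) (g : Fin n → l)
    (h : ∀ i i', g i = g i' → f i = f i')
    (hc : (Finset.univ.image g).card ≤ (Finset.univ.image f).card) :
    ∀ i i', f i = f i' → g i = g i' := by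
  classical
  intro i i' hi
  have hφ : ∀ y : l, ∃ x : k, ∀ i, g i = y → f i = x := by
    intro y
    by_cases hy : ∃ i, g i = y
    · obtain ⟨i0, h0⟩ := hy
      exact ⟨f i0, fun i hi => h _ _ (hi.trans h0.symm)⟩
    · exact ⟨f i, fun i1 h1 => (hy ⟨i1, h1⟩).elim⟩
  choose φ hφ using hφ
  have h1 : Set.MapsTo φ (Finset.univ.image g : Finset l) (Finset.univ.image f : Finset k) := by
    intro y hy
    obtain ⟨a, -, rfl⟩ := Finset.mem_image.1 (Finset.mem_coe.1 hy)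
    rw [← hφ (g a) a rfl]
    exact Finset.mem_coe.2 (Finset.mem_image_of_mem _ (Finset.mem_univ _))
  have h2 : Set.SurjOn φ (Finset.univ.image g : Finset l) (Finset.univ.image f : Finset k) := by
    intro x hx
    obtain ⟨a, -, rfl⟩ := Finset.mem_image.1 (Finset.mem_coe.1 hx)
    exact ⟨g a, Finset.mem_coe.2 (Finset.mem_image_of_mem _ (Finset.mem_univ _)),
      (hφ (g a) a rfl).symm⟩
  have h3 := Finset.injOn_of_surjOn_of_card_le φ h1 h2 hc
  refine h3 (Finset.mem_coe.2 (Finset.mem_image_of_mem _ (Finset.mem_univ _)))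
    (Finset.mem_coe.2 (Finset.mem_image_of_mem _ (Finset.mem_univ _))) ?_
  rw [← hφ (g i) i rfl, ← hφ (g i') i' rfl, hi]

section diag

variable {n : ℕ} {k : Type} [Field k]

theorem diag_mul {A B : Matrix (Fin n) (Fin n) k} (hA : A.IsDiag) (i : Fin n) :
    (A * B) i i = A i i * B i i := by
  rw [Matrix.mul_apply, Finset.sum_eq_single i]
  · intro b _ hb
    rw [hA hb.symm, zero_mul]
  · intro h
    exact (h (Finset.mem_univ _)).elim

theorem diag_mul' {A B : Matrix (Fin n) (Fin n) k} (hA : A.IsDiag) (hB : B.IsDiag) :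
    (A * B).IsDiag := by
  rw [← hA.diagonal_diag, ← hB.diagonal_diag, Matrix.diagonal_mul_diagonal]
  exact Matrix.isDiag_diagonal _

theorem diag_one : (1 : Matrix (Fin n) (Fin n) k).IsDiag := Matrix.isDiag_one

theorem diag_pow {A : Matrix (Fin n) (Fin n) k} (hA : A.IsDiag) (m : ℕ) :
    (A ^ m).IsDiag ∧ ∀ i, (A ^ m) i i = A i i ^ m := by
  induction m with
  | zero => exact ⟨by rw [pow_zero]; exact diag_one, fun i => by simp⟩
  | succ m ih =>
    refine ⟨by rw [pow_succ]; exact diag_mul' ih.1 hA, fun i => ?_⟩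
    rw [pow_succ, diag_mul ih.1, ih.2 i, pow_succ]

variable {G : Type} [Group G] (ρ : G →* GL (Fin n) k)

theorem diag_ne {g : G} (hg : (ρ g : Matrix (Fin n) (Fin n) k).IsDiag) (i : Fin n) :
    (ρ g : Matrix (Fin n) (Fin n) k) i i ≠ 0 := by
  intro h
  have h1 : (ρ g : Matrix (Fin n) (Fin n) k) * (ρ g⁻¹ : Matrix (Fin n) (Fin n) k) = 1 := by
    rw [← Units.val_mul, ← map_mul, mul_inv_cancel, map_one, Units.val_one]
  have h2 := congrFun (congrFun h1 i) i
  rw [diag_mul hg, h, zero_mul, Matrix.one_apply_eq] at h2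
  exact zero_ne_one h2

/-- the characters of a subgroup with diagonal image -/
theorem exists_chi (H : Subgroup G) (hH : ∀ h ∈ H, (ρ h : Matrix (Fin n) (Fin n) k).IsDiag) :
    ∃ χ : Fin n → (H →* kˣ), ∀ i (h : H),
      (χ i h : k) = (ρ (h : G) : Matrix (Fin n) (Fin n) k) i i := by
  refine ⟨fun i => MonoidHom.toHomUnits
    { toFun := fun h : H => (ρ (h : G) : Matrix (Fin n) (Fin n) k) i i
      map_one' := by simp
      map_mul' := fun a b => by
        show (ρ ((a * b : H) : G) : Matrix (Fin n) (Fin n) k) i i = _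
        rw [Subgroup.coe_mul, map_mul, Units.val_mul, diag_mul (hH _ a.2)] }, fun i h => ?_⟩
  rfl

/-- an element of a subgroup with diagonal image at which many characters are different -/
theorem exists_gen (H : Subgroup G) (hH : ∀ h ∈ H, (ρ h : Matrix (Fin n) (Fin n) k).IsDiag)
    (m0 : ℕ) (R : Fin n → Fin n → Prop)
    (h : ∀ i i', R i i' → ∀ s : ℕ, 0 < s → s ≤ n ^ 2 → ∃ g ∈ H,
      (ρ g : Matrix (Fin n) (Fin n) k) i i ^ (m0 * s) ≠
        (ρ g : Matrix (Fin n) (Fin n) k) i' i' ^ (m0 * s)) :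
    ∃ g ∈ H, ∀ i i', R i i' → (ρ g : Matrix (Fin n) (Fin n) k) i i ^ m0 ≠
        (ρ g : Matrix (Fin n) (Fin n) k) i' i' ^ m0 := by
  obtain ⟨χ, hχ⟩ := exists_chi ρ H hH
  obtain ⟨g, hg⟩ := cover (m0 := m0) χ R (fun i i' hR s h0 h1 => by
    obtain ⟨g, hgH, hg⟩ := h i i' hR s h0 h1
    refine ⟨⟨g, hgH⟩, fun he => hg ?_⟩
    have h2 := congrArg (Units.val) he
    rw [Units.val_pow_eq_pow_val, Units.val_pow_eq_pow_val, hχ, hχ] at h2
    exact h2)
  refine ⟨g, g.2, fun i i' hR he => hg i i' hR ?_⟩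
  apply Units.ext
  rw [Units.val_pow_eq_pow_val, Units.val_pow_eq_pow_val, hχ, hχ]
  exact he

/-- the eigenvalues of a diagonal matrix -/
theorem eig {A : Matrix (Fin n) (Fin n) k} (hA : A.IsDiag) {x : Fin n → k}
    (h : A.charpoly = ∏ i, (X - Polynomial.C (x i))) :
    (∀ i, ∃ a, x i = A a a) ∧ (∀ a, ∃ i, A a a = x i) := by
  have h1 : A.charpoly = ∏ i, (X - Polynomial.C (A i i)) := by
    conv_lhs => rw [← hA.diagonal_diag]
    rw [Matrix.charpoly_diagonal]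
    rfl
  rw [h1] at h
  constructor
  · intro i
    have h2 := congrArg (Polynomial.eval (x i)) h
    rw [eval_prod, eval_prod] at h2
    have h3 : ∏ j, Polynomial.eval (x i) (X - Polynomial.C (x j)) = 0 :=
      Finset.prod_eq_zero (Finset.mem_univ i) (by simp)
    rw [h3] at h2
    obtain ⟨a, -, ha⟩ := Finset.prod_eq_zero_iff.1 h2
    refine ⟨a, ?_⟩
    rw [eval_sub, eval_X, eval_C] at ha
    exact sub_eq_zero.1 ha
  · intro a
    have h2 := congrArg (Polynomial.eval (A a a)) h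
    rw [eval_prod, eval_prod] at h2
    have h3 : ∏ j, Polynomial.eval (A a a) (X - Polynomial.C (A j j)) = 0 :=
      Finset.prod_eq_zero (Finset.mem_univ a) (by simp)
    rw [h3] at h2
    obtain ⟨i, -, hi⟩ := Finset.prod_eq_zero_iff.1 h2.symm
    refine ⟨i, ?_⟩
    rw [eval_sub, eval_X, eval_C] at hi
    exact sub_eq_zero.1 hi

end diag

section card

variable {n : ℕ} {k l : Type} [DecidableEq k] [DecidableEq l]

theorem card_le (ψ : l → k) (x : Fin n → l) (y : Fin n → k) (h : ∀ a, ∃ i, y a = ψ (x i)) :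
    (Finset.univ.image y).card ≤ (Finset.univ.image x).card := by
  refine le_trans (Finset.card_le_card ?_) (Finset.card_image_le (s := Finset.univ.image x) (f := ψ))
  intro z hz
  obtain ⟨a, -, rfl⟩ := Finset.mem_image.1 hz
  obtain ⟨i, hi⟩ := h a
  rw [hi]
  exact Finset.mem_image_of_mem _ (Finset.mem_image_of_mem _ (Finset.mem_univ _))

theorem card_ge (ψ : l → k) (x : Fin n → l) (y : Fin n → k) (h : ∀ i, ∃ a, ψ (x i) = y a)
    (hi : ∀ i i', ψ (x i) = ψ (x i') → x i = x i') :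
    (Finset.univ.image x).card ≤ (Finset.univ.image y).card := by
  have h1 : ((Finset.univ.image x).image ψ).card = (Finset.univ.image x).card := by
    apply Finset.card_image_of_injOn
    intro a ha b hb hab
    obtain ⟨i, -, rfl⟩ := Finset.mem_image.1 (Finset.mem_coe.1 ha)
    obtain ⟨i', -, rfl⟩ := Finset.mem_image.1 (Finset.mem_coe.1 hb)
    exact hi _ _ hab
  rw [← h1]
  apply Finset.card_le_card
  intro z hz
  obtain ⟨w, hw, rfl⟩ := Finset.mem_image.1 hz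
  obtain ⟨i, -, rfl⟩ := Finset.mem_image.1 hw
  obtain ⟨a, ha⟩ := h i
  rw [ha]
  exact Finset.mem_image_of_mem _ (Finset.mem_univ _)

end card

section gen

variable {K E : Type} [Field K] [NumberField K] [Field E] [NumberField E]
variable {j : E →+* QBar} {N n B : ℕ} {P : HeightOneSpectrum (𝓞 K) → (𝓞 E)[X]}
  {lam : HeightOneSpectrum (𝓞 E)}

/-- the diagonal entries of `ρ(g)` -/
noncomputable def dl (S : SD j N n B P lam) (g : GK K) (i : Fin n) : S.k :=
  (S.ρ g : Matrix (Fin n) (Fin n) S.k) i i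

/-- the eigenvalues of Frobenius -/
theorem frob_eig (S : SD j N n B P lam) {α : HeightOneSpectrum (𝓞 K) → Fin n → ZBar}
    {v : HeightOneSpectrum (𝓞 K)} (hv : (N : 𝓞 K) ∉ v.asIdeal)
    (hv' : ((Ideal.absNorm lam.asIdeal : ℕ) : 𝓞 K) ∉ v.asIdeal)
    (hP : (P v).map (jz j) = ∏ i, (X - Polynomial.C (α v i))) {σ g : GK K} (hσ : IsFrob v σ)
    (hg : S.ρ g = S.ρ σ) (hd : (S.ρ g : Matrix (Fin n) (Fin n) S.k).IsDiag) :
    (∀ i, ∃ a, S.ψ (α v i) = dl S g a) ∧ (∀ a, ∃ i, dl S g a = S.ψ (α v i)) := by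
  apply eig hd
  rw [hg, S.hfr v hv hv' σ hσ, ← Polynomial.map_map, hP, Polynomial.map_prod]
  refine Finset.prod_congr rfl fun i _ => ?_
  rw [Polynomial.map_sub, Polynomial.map_X, Polynomial.map_C]

theorem cast_ne (S : SD j N n B P lam) {m : ℕ} (hm : (m : 𝓞 E) ∉ lam.asIdeal) : (m : S.k) ≠ 0 := by
  intro h
  apply hm
  rw [← S.hker, RingHom.mem_ker, map_natCast]
  exact h

/-- the place of a separating element is generic -/
theorem generic (S : SD j N n B P lam) {α : HeightOneSpectrum (𝓞 K) → Fin n → ZBar} {M m0 : ℕ}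
    (hm0 : (m0 : 𝓞 E) ∉ lam.asIdeal) {v : HeightOneSpectrum (𝓞 K)} (hv : (N : 𝓞 K) ∉ v.asIdeal)
    (hv' : ((Ideal.absNorm lam.asIdeal : ℕ) : 𝓞 K) ∉ v.asIdeal)
    (hP : (P v).map (jz j) = ∏ i, (X - Polynomial.C (α v i)))
    (hα : ∀ i i', (∃ m : ℕ, 0 < m ∧ α v i ^ m = α v i' ^ m) → α v i ^ m0 = α v i' ^ m0)
    {σ g : GK K} (hσ : IsFrob v σ) (hg : S.ρ g = S.ρ σ) (hZ : S.Z M g)
    (hsep : ∀ i i', ¬ S.rel M i i' → dl S g i ^ m0 ≠ dl S g i' ^ m0) : NoRU α v := by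
  obtain ⟨h1, h2⟩ := frob_eig S hv hv' hP hσ hg hZ.1
  intro i i' him
  have h3 := hα i i' him
  have h4 : S.ψ (α v i) ^ m0 = S.ψ (α v i') ^ m0 := by rw [← map_pow, h3, map_pow]
  obtain ⟨a, ha⟩ := h1 i
  obtain ⟨b, hb⟩ := h1 i'
  have hab : S.rel M a b := by
    by_contra hn
    apply hsep a b hn
    rw [← ha, ← hb, h4]
  have h5 : S.ψ (α v i) = S.ψ (α v i') := by
    rw [ha, hb]
    exact hZ.2 a b hab
  refine Pool.Agent.H500.HC.root_unique S.ψ (h := m0) (cast_ne S hm0) h3 h5 ?_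
  rw [hb]
  exact diag_ne _ hZ.1 b

theorem ker_eq (S : SD j N n B P lam) {g σ : GK K} (h : g⁻¹ * σ ∈ S.ρ.ker) : S.ρ g = S.ρ σ := by
  rw [MonoidHom.mem_ker, map_mul, map_inv, inv_mul_eq_one] at h
  exact h

theorem mem_split {v : HeightOneSpectrum (𝓞 K)} {a b : ℕ} (h : ((a * b : ℕ) : 𝓞 K) ∉ v.asIdeal) :
    (a : 𝓞 K) ∉ v.asIdeal ∧ (b : 𝓞 K) ∉ v.asIdeal := by
  rw [Nat.cast_mul] at h
  exact ⟨fun h' => h (v.asIdeal.mul_mem_right _ h'), fun h' => h (v.asIdeal.mul_mem_left _ h')⟩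

end gen

/-- **PART 10.** -/
theorem main : S_UM → S_E1 → Pool.Agent.H500.R2.S_Spl → S_E2 := by
  classical
  intro hUM hE1 hSpl K E _ _ _ _ j N n B M m0 P α hN hm0 hM hB hP hα Λ hΛ hS
  set c : HeightOneSpectrum (𝓞 K) → ℕ := fun v => (Finset.univ.image (α v)).card with hc
  have hcn : ∀ v, c v ≤ n := fun v => (Finset.card_image_le).trans (by simp)
  have hlam0 : ∀ lam : HeightOneSpectrum (𝓞 E), 0 < Ideal.absNorm lam.asIdeal := fun lam =>
    Nat.pos_of_ne_zero (Pool.Agent.H500.HC.norm_ne_zero lam)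
  -- places from the local data
  have hfirst : ∀ lam : HeightOneSpectrum (𝓞 E), (m0 : 𝓞 E) ∉ lam.asIdeal →
      ∀ S : SD j N n B P lam, S.Good M m0 → ∃ (g : GK K) (v : HeightOneSpectrum (𝓞 K)),
        (∀ i i', dl S g i = dl S g i' → S.rel M i i') ∧ (∀ i i', S.rel M i i' → dl S g i = dl S g i') ∧
        (N : 𝓞 K) ∉ v.asIdeal ∧ NoRU α v ∧ (Finset.univ.image (dl S g)).card ≤ c v := by
    intro lam hml S hG
    obtain ⟨U', hZ, hUn, hUo, hUk, -, -, hUM'⟩ := hUM K E j N n B P lam S M hM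
    obtain ⟨g, hgU, hg⟩ := exists_gen S.ρ U' (fun h hh => ((hZ h).1 hh).1) m0
      (fun i i' => ¬ S.rel M i i') (by
        intro i i' hR s hs0 hs1
        rcases hG i i' with h | h
        · exact (hR h).elim
        · obtain ⟨u, hu, hne⟩ := h s hs0 hs1
          refine ⟨u ^ M, hUM' u hu, fun he => hne ?_⟩
          rw [map_pow, Units.val_pow_eq_pow_val, (diag_pow (S.hdiag u hu) M).2,
            (diag_pow (S.hdiag u hu) M).2, ← pow_mul, ← pow_mul, ← mul_assoc] at he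
          exact he)
    obtain ⟨v, σ, hv, hσ, hσk⟩ := Pool.Agent.H500.R2.frob_ex S.ρ.ker inferInstance S.hop g
      (Nat.mul_pos hN (hlam0 lam))
    obtain ⟨hv1, hv2⟩ := mem_split hv
    have hgσ := ker_eq S hσk
    have hZg := (hZ g).1 hgU
    refine ⟨g, v, ?_, fun i i' h => hZg.2 i i' h, hv1,
      generic S (M := M) hml hv1 hv2 (hP v hv1) (hα v hv1) hσ hgσ hZg hg, ?_⟩
    · intro i i' he
      by_contra hn
      exact hg i i' hn (by
        show dl S g i ^ m0 = dl S g i' ^ m0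
        rw [he])
    · exact card_le S.ψ (α v) (dl S g) (frob_eig S hv1 hv2 (hP v hv1) hσ hgσ hZg.1).2
  have hfm : {lam : HeightOneSpectrum (𝓞 E) | (m0 : 𝓞 E) ∈ lam.asIdeal}.Finite :=
    Pool.Agent.H500.Kum.fin_mem (E := E) (x := (m0 : 𝓞 E)) (by exact_mod_cast hm0.ne')
  -- the maximal number of values
  obtain ⟨v0, hv0, hNR, hmax⟩ : ∃ v0 : HeightOneSpectrum (𝓞 K), (N : 𝓞 K) ∉ v0.asIdeal ∧ NoRU α v0 ∧
      ∀ v : HeightOneSpectrum (𝓞 K), (N : 𝓞 K) ∉ v.asIdeal → NoRU α v → c v ≤ c v0 := by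
    have hex : ∃ m : ℕ, ∃ v : HeightOneSpectrum (𝓞 K), (N : 𝓞 K) ∉ v.asIdeal ∧ NoRU α v ∧
        n - c v = m := by
      obtain ⟨lam, hlam, hml⟩ := (hΛ.sdiff hfm).nonempty
      obtain ⟨S, hG⟩ := hS lam hlam
      obtain ⟨g, v, -, -, h1, h2, -⟩ := hfirst lam hml S hG
      exact ⟨_, v, h1, h2, rfl⟩
    obtain ⟨v0, h1, h2, h3⟩ := Nat.find_spec hex
    refine ⟨v0, h1, h2, fun v hv hv' => ?_⟩
    have h4 : Nat.find hex ≤ n - c v := Nat.find_min' hex ⟨v, hv, hv', rfl⟩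
    have h5 := hcn v
    have h6 := hcn v0
    omega
  obtain ⟨U0, hU0o, hU0n, hU0⟩ := hSpl K E
  have hU0f : Finite (GK K ⧸ U0) := Subgroup.quotient_finite_of_isOpen _ hU0o
  have hi0 : 0 < U0.index := by
    rw [Subgroup.index_eq_card]
    exact Nat.card_pos
  set R : ℕ := m0 * (n ^ 2).factorial * U0.index with hR
  have hR0 : 0 < R := Nat.mul_pos (Nat.mul_pos hm0 (Nat.factorial_pos _)) hi0
  -- the exceptional places
  have hf1 : {lam : HeightOneSpectrum (𝓞 E) | ((Ideal.absNorm v0.asIdeal : ℕ) : 𝓞 E) ∈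
      lam.asIdeal}.Finite := Pool.Agent.H500.Kum.fin_mem (E := E)
        (x := ((Ideal.absNorm v0.asIdeal : ℕ) : 𝓞 E))
        (by exact_mod_cast Pool.Agent.H500.HC.norm_ne_zero v0)
  have hf2 := hE1 K E j N n B M P α hM hB v0 hv0 (hP v0 hv0) hNR
  have hf3 : {lam : HeightOneSpectrum (𝓞 E) | ∃ i i', α v0 i ≠ α v0 i' ∧
      ∃ S : SD j N n B P lam, S.ψ (α v0 i ^ R - α v0 i' ^ R) = 0}.Finite := by
    have h1 : {lam : HeightOneSpectrum (𝓞 E) | ∃ i i', α v0 i ≠ α v0 i' ∧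
      ∃ S : SD j N n B P lam, S.ψ (α v0 i ^ R - α v0 i' ^ R) = 0} =
        ⋃ i, ⋃ i', {lam | α v0 i ≠ α v0 i' ∧
          ∃ S : SD j N n B P lam, S.ψ (α v0 i ^ R - α v0 i' ^ R) = 0} := by
      ext lam
      simp
    rw [h1]
    refine Set.finite_iUnion fun i => Set.finite_iUnion fun i' => ?_
    by_contra hinf
    have hne : α v0 i ≠ α v0 i' := by
      obtain ⟨lam, h, -⟩ := Set.Infinite.nonempty hinf
      exact h
    have h2 := Pool.Agent.H500.HC.eq_zero_of_inf j (z := α v0 i ^ R - α v0 i' ^ R) hinf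
      (by
        rintro lam ⟨-, S, hS⟩
        exact ⟨S.k, inferInstance, S.ψ, S.hker, hS⟩)
    exact hne (hNR i i' ⟨R, hR0, sub_eq_zero.1 h2⟩)
  obtain ⟨lam, hlam, hex⟩ := (hΛ.sdiff (((hfm.union hf1).union hf2).union hf3)).nonempty
  simp only [Set.mem_union, Set.mem_ofPred_eq, not_or] at hex
  obtain ⟨⟨⟨hml, hnl⟩, he1⟩, he2⟩ := hex
  obtain ⟨S, hG⟩ := hS lam hlam
  -- the Frobenius elements at `v0`
  obtain ⟨σ, hσ⟩ := Pool.Agent.H500.R2.frob_at v0
  have hZσ : S.Z M σ := by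
    by_contra hn
    exact he1 ⟨S, σ, hσ, hn⟩
  have hv0' : ((Ideal.absNorm lam.asIdeal : ℕ) : 𝓞 K) ∉ v0.asIdeal := by
    intro h
    obtain ⟨l, f, hl, hlm, -, hlf⟩ := Pool.Agent.H500.R2.exists_char lam
    rw [hlf, Nat.cast_pow] at h
    have h1 : (l : 𝓞 K) ∈ v0.asIdeal := v0.isPrime.mem_of_pow_mem _ h
    have h2 := (Pool.Agent.H500.HC.natCast_mem_iff_dvd hl h1).1 (Pool.Agent.H500.HC.norm_mem v0)
    exact hnl ((Pool.Agent.H500.HC.natCast_mem_iff_dvd hl hlm).2 h2)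
  obtain ⟨hα1, hα2⟩ := frob_eig S hv0 hv0' (hP v0 hv0) hσ rfl hZσ.1
  have hRne : ∀ i i', α v0 i ≠ α v0 i' → S.ψ (α v0 i) ^ R ≠ S.ψ (α v0 i') ^ R := by
    intro i i' hne he
    apply he2
    refine ⟨i, i', hne, S, ?_⟩
    rw [map_sub, map_pow, map_pow, he, sub_self]
  have hinj : ∀ i i', S.ψ (α v0 i) = S.ψ (α v0 i') → α v0 i = α v0 i' := by
    intro i i' he
    by_contra hne
    exact hRne i i' hne (by rw [he])
  have hsepσ : ∀ i i', dl S σ i = dl S σ i' → S.rel M i i' := by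
    obtain ⟨g, v, hg1, hg2, hv, hv', hcv⟩ := hfirst lam hml S hG
    have h1 : (Finset.univ.image (dl S g)).card ≤ (Finset.univ.image (dl S σ)).card :=
      (hcv.trans (hmax v hv hv')).trans (card_ge S.ψ (α v0) (dl S σ) hα1 hinj)
    have h2 := sep (dl S σ) (dl S g) (fun i i' he => hZσ.2 i i' (hg1 i i' he)) h1
    exact fun i i' he => hg1 i i' (h2 i i' he)
  have hRσ : ∀ i i', ¬ S.rel M i i' → dl S σ i ^ R ≠ dl S σ i' ^ R := by
    intro i i' hn
    obtain ⟨a, ha⟩ := hα2 i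
    obtain ⟨b, hb⟩ := hα2 i'
    rw [ha, hb]
    apply hRne
    intro hab
    apply hn
    apply hsepσ
    rw [ha, hb, hab]
  -- the separating element
  obtain ⟨U', hZ, hUn, hUo, hUk, -, -, -⟩ := hUM K E j N n B P lam S M hM
  obtain ⟨g, hgU, hg⟩ := exists_gen S.ρ (U' ⊓ U0) (fun h hh => ((hZ h).1 hh.1).1) m0
    (fun i i' => ¬ S.rel M i i') (by
      intro i i' hn s hs0 hs1
      refine ⟨σ ^ U0.index, ⟨U'.pow_mem ((hZ σ).2 hZσ) _, U0.pow_index_mem σ⟩, fun he => ?_⟩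
      rw [map_pow, Units.val_pow_eq_pow_val, (diag_pow hZσ.1 _).2, (diag_pow hZσ.1 _).2, ← pow_mul,
        ← pow_mul] at he
      apply hRσ i i' hn
      have hdvd : U0.index * (m0 * s) ∣ R := by
        obtain ⟨t, ht⟩ := Nat.dvd_factorial hs0 hs1
        refine ⟨t, ?_⟩
        rw [hR, ht]
        ring
      obtain ⟨t, ht⟩ := hdvd
      rw [ht, pow_mul _ _ t, pow_mul _ _ t]
      exact congrArg (· ^ t) he)
  have hZg := (hZ g).1 hgU.1
  refine (hU0 S.ρ.ker inferInstance S.hop g hgU.2 (N * Ideal.absNorm lam.asIdeal)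
    (Nat.mul_pos hN (hlam0 lam))).mono ?_
  rintro v ⟨hv, hsp, τ, hτ, hτk⟩
  obtain ⟨hv1, hv2⟩ := mem_split hv
  exact ⟨hv1, hsp, generic S (M := M) hml hv1 hv2 (hP v hv1) (hα v hv1) hτ (ker_eq S hτk) hZg hg⟩

end Pool.Agent.H190.SV.E2
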